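import Pool.Agent.TH668.Sm.Unif

set_option autoImplicit false

/-! Record gaps near `α t ^ c + P t`, uniformly in `α` and the polynomial `P`. -/

namespace Pool.Agent.TH668.Sm

open Finset Filter
open Pool.Agent.W147.PS (ff ff_compare ev_pow)

/-- `c (c - 1) ⋯ (c - m + 1)` -/
noncomputable def gg (c : ℝ) (m : ℕ) : ℝ := ∏ i ∈ range m, (c - i)

lemma gg_pos (c : ℝ) (m : ℕ) (h : (m : ℝ) < c + 1) : 0 < gg c m := by
  apply prod_pos
  intro i hi
  rw [mem_range] at hi
  have : (i : ℝ) + 1 ≤ m := by exact_mod_cast hi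
  linarith

set_option maxHeartbeats 4000000 in
theorem power_poly (c : ℝ) (hc : 0 < c) (hcn : ∀ m : ℕ, c ≠ m) :
    ∃ κ : ℝ, 0 < κ ∧ ∃ δ : ℝ, 0 < δ ∧ ∃ M₀ : ℝ, ∀ M : ℝ, M₀ ≤ M →
      ∀ (α : ℝ) (P : Polynomial ℝ), M ^ (-δ) ≤ |α| → |α| ≤ M ^ δ → (P.natDegree : ℝ) < c →
      (∀ t ∈ Set.Icc M (3 * M), M ^ δ ≤ α * t ^ c + P.eval t) →
      ∃ n : ℕ, M ≤ n ∧ (n : ℝ) ≤ 3 * M ∧ ∀ q : ℕ, q.Prime →
        κ * ff M < |(q : ℝ) - (α * (n : ℝ) ^ c + P.eval (n : ℝ))| := by
  set k : ℕ := ⌊c⌋₊ with hk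
  have hkc : (k : ℝ) < c := lt_of_le_of_ne (Nat.floor_le hc.le) (fun h => hcn k h.symm)
  have hck : c < k + 1 := Nat.lt_floor_add_one c
  set f : ℝ := c - k with hf
  set δ : ℝ := min f (1 - f) / 4 with hδ
  have hf0 : 0 < f := by linarith
  have hf1 : 0 < 1 - f := by linarith
  have hδ0 : 0 < δ := by
    have := lt_min hf0 hf1
    positivity
  have hδf : 4 * δ ≤ f := by
    have := min_le_left f (1 - f)
    linarith
  have hδ1f : 4 * δ ≤ 1 - f := by
    have := min_le_right f (1 - f)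
    linarith
  obtain ⟨κ, hκ, M₁, hmain⟩ := uniform_main k δ hδ0 (by linarith)
  set g : ℝ := gg c (k + 1) with hg
  have hg0 : 0 < g := gg_pos c (k + 1) (by push_cast; linarith)
  refine ⟨κ, hκ, δ, hδ0, ?_⟩
  apply eventually_atTop.mp
  filter_upwards [eventually_ge_atTop M₁, eventually_ge_atTop (4 : ℝ),
    (tendsto_rpow_atTop (show 0 < 2 * δ by linarith)).eventually_ge_atTop g,
    (tendsto_rpow_atTop (show 0 < 2 * δ by linarith)).eventually_ge_atTop (3 / g)]
    with M hM1 hM4 hp1 hp2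
  have hM0 : 0 < M := lt_of_lt_of_le (by norm_num) hM4
  have hMone : 1 ≤ M := le_trans (by norm_num) hM4
  intro α P hα1 hα2 hP hpos
  have hα0 : 0 < |α| := lt_of_lt_of_le (by positivity) hα1
  have hαne : α ≠ 0 := abs_pos.mp hα0
  obtain ⟨s, hs1, hsα⟩ : ∃ s : ℝ, (s = 1 ∨ s = -1) ∧ s * α = |α| := by
    rcases lt_or_gt_of_ne hαne with h | h
    · exact ⟨-1, Or.inr rfl, by rw [abs_of_neg h]; ring⟩
    · exact ⟨1, Or.inl rfl, by rw [abs_of_pos h]; ring⟩
  have hPk : P.natDegree < k + 1 := by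
    have : (P.natDegree : ℝ) < k + 1 := hP.trans hck
    exact_mod_cast this
  set A : ℝ := (⌈M⌉₊ : ℝ) with hA
  have hAM : M ≤ A := Nat.le_ceil M
  have hAM2 : A < M + 1 := Nat.ceil_lt_add_one hM0.le
  have hsub : ∀ t ∈ Set.Icc A (A + M), t ∈ Set.Icc M (3 * M) := fun t ht =>
    ⟨hAM.trans ht.1, by linarith [ht.2]⟩
  set φ : ℕ → ℝ → ℝ := fun m t => α * (gg c m * t ^ (c - m)) + (Polynomial.derivative^[m] P).eval t
    with hφ
  have hfc : c - ((k + 1 : ℕ) : ℝ) = -(1 - f) := by rw [hf]; push_cast; ring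
  have hφk : ∀ t, φ (k + 1) t = α * (g * t ^ (-(1 - f))) := by
    intro t
    simp only [hφ]
    rw [Polynomial.iterate_derivative_eq_zero hPk, Polynomial.eval_zero, add_zero, hfc]
  have hφk2 : ∀ t, φ (k + 2) t = α * (gg c (k + 2) * t ^ (c - ((k + 2 : ℕ) : ℝ))) := by
    intro t
    simp only [hφ]
    rw [Polynomial.iterate_derivative_eq_zero (by omega), Polynomial.eval_zero, add_zero]
  have hφ0 : ∀ t, φ 0 t = α * t ^ c + P.eval t := by
    intro t
    simp only [hφ, gg, range_zero, prod_empty, one_mul, Nat.cast_zero, sub_zero,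
      Function.iterate_zero, id]
  have hy : HyS k A (A + M) (M ^ (δ - 1)) (M ^ (-δ)) s (-s) φ := by
    refine ⟨?_, ?_, ?_, ?_⟩
    · intro m hm t ht
      have ht0 : 0 < t := lt_of_lt_of_le hM0 (hsub t ht).1
      have h1 : HasDerivAt (fun t : ℝ => t ^ (c - m)) ((c - m) * t ^ (c - m - 1)) t :=
        Real.hasDerivAt_rpow_const (Or.inl ht0.ne')
      have h2 := ((h1.const_mul (gg c m)).const_mul α).add
        (Polynomial.hasDerivAt (Polynomial.derivative^[m] P) t)
      have e1 : φ (m + 1) t = α * (gg c m * ((c - m) * t ^ (c - m - 1))) +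
          (Polynomial.derivative (Polynomial.derivative^[m] P)).eval t := by
        simp only [hφ]
        rw [Function.iterate_succ_apply', gg, prod_range_succ, ← gg]
        push_cast
        rw [← sub_sub]
        ring
      rw [e1]
      exact h2
    · intro t ht
      have ht' := hsub t ht
      have ht0 : 0 < t := lt_of_lt_of_le hM0 ht'.1
      rw [hφk, ← mul_assoc, hsα]
      have h1 : M ^ (-(1 - f)) / 3 ≤ t ^ (-(1 - f)) := by
        calc M ^ (-(1 - f)) / 3 = M ^ (-(1 - f)) * 3 ^ (-1 : ℝ) := by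
              rw [Real.rpow_neg_one]; ring
          _ ≤ M ^ (-(1 - f)) * 3 ^ (-(1 - f)) := by
              apply mul_le_mul_of_nonneg_left _ (by positivity)
              exact Real.rpow_le_rpow_of_exponent_le (by norm_num) (by linarith)
          _ = (3 * M) ^ (-(1 - f)) := by
              rw [Real.mul_rpow (by norm_num) hM0.le, mul_comm]
          _ ≤ t ^ (-(1 - f)) := Real.rpow_le_rpow_of_nonpos ht0 ht'.2 (by linarith)
      calc M ^ (δ - 1) = M ^ (-(2 * δ)) * M ^ (3 * δ - 1) := by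
            rw [← Real.rpow_add hM0]; ring_nf
        _ ≤ (g / 3) * M ^ (3 * δ - 1) := by
            apply mul_le_mul_of_nonneg_right _ (by positivity)
            rw [Real.rpow_neg hM0.le, inv_le_comm₀ (by positivity) (by positivity), inv_div]
            exact hp2
        _ ≤ (g / 3) * M ^ (-δ + -(1 - f)) := by
            apply mul_le_mul_of_nonneg_left _ (by positivity)
            exact Real.rpow_le_rpow_of_exponent_le hMone (by linarith)
        _ = M ^ (-δ) * (g * (M ^ (-(1 - f)) / 3)) := by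
            rw [Real.rpow_add hM0]; ring
        _ ≤ |α| * (g * t ^ (-(1 - f))) := by gcongr
    · intro t ht
      have ht' := hsub t ht
      have ht0 : 0 < t := lt_of_lt_of_le hM0 ht'.1
      rw [hφk, ← mul_assoc, hsα]
      have h1 : t ^ (-(1 - f)) ≤ M ^ (-(1 - f)) :=
        Real.rpow_le_rpow_of_nonpos hM0 ht'.1 (by linarith)
      calc |α| * (g * t ^ (-(1 - f))) ≤ M ^ δ * (M ^ (2 * δ) * M ^ (-(1 - f))) := by gcongr
        _ = M ^ (δ + 2 * δ + -(1 - f)) := by
            rw [Real.rpow_add hM0, Real.rpow_add hM0]; ring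
        _ ≤ M ^ (-δ) := Real.rpow_le_rpow_of_exponent_le hMone (by linarith)
    · intro t ht
      have ht' := hsub t ht
      have ht0 : 0 < t := lt_of_lt_of_le hM0 ht'.1
      rw [hφk2]
      have e1 : gg c (k + 2) = g * (c - (k + 1 : ℕ)) := by
        rw [gg, prod_range_succ, ← gg]
      rw [e1]
      have h3 : 0 ≤ t ^ (c - ((k + 2 : ℕ) : ℝ)) := by positivity
      have h4 : 0 ≤ ((k + 1 : ℕ) : ℝ) - c := by push_cast; linarith
      calc (0 : ℝ) ≤ |α| * (g * (((k + 1 : ℕ) : ℝ) - c) * t ^ (c - ((k + 2 : ℕ) : ℝ))) := by positivity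
        _ = (s * α) * (g * (((k + 1 : ℕ) : ℝ) - c) * t ^ (c - ((k + 2 : ℕ) : ℝ))) := by rw [hsα]
        _ = _ := by ring
  have hs2 : -s = 1 ∨ -s = -1 := by
    rcases hs1 with h | h <;> rw [h] <;> norm_num
  obtain ⟨n, hn, hq⟩ := hmain M hM1 A s (-s) φ hs1 hs2 hy (fun t ht => by
    rw [hφ0]
    exact hpos t (hsub t ht))
  refine ⟨⌈M⌉₊ + n, ?_, ?_, ?_⟩
  · push_cast
    have : (0 : ℝ) ≤ n := Nat.cast_nonneg n
    linarith
  · push_cast
    linarith
  · intro q hqp
    have h5 := hq q hqp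
    rw [hφ0] at h5
    push_cast
    exact h5

end Pool.Agent.TH668.Sm
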