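import Pool.Agent.TH915.PW.Smooth

set_option autoImplicit false

/-! Record gaps along smooth curves, uniformly in the curve. -/

namespace Pool.Agent.TH668.Sm

open Finset Filter
open Pool.Agent.TH915.PW
open Pool.Agent.H469R2.NK (e norm_e e_add conj_e Cq Cq_pos)
open Pool.Agent.W147.PS (ff ff_compare ev_pow)

/-- hypotheses on the phase: the derivative of order `k + 1` has a sign `s`, absolute values between
`lo` and `hi`, and is monotone (`s'` is the sign of the next derivative) -/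
structure HyS (k : ℕ) (A B lo hi s s' : ℝ) (φ : ℕ → ℝ → ℝ) : Prop where
  der : ∀ m ≤ k + 1, ∀ t ∈ Set.Icc A B, HasDerivAt (φ m) (φ (m + 1) t) t
  lo : ∀ t ∈ Set.Icc A B, lo ≤ s * φ (k + 1) t
  hi : ∀ t ∈ Set.Icc A B, s * φ (k + 1) t ≤ hi
  mono : ∀ t ∈ Set.Icc A B, 0 ≤ s' * φ (k + 2) t

lemma norm_sum_conj (θ : ℝ) (x : ℕ → ℝ) (L : ℕ) :
    ‖∑ n ∈ range L, e (θ * -(x n))‖ = ‖∑ n ∈ range L, e (θ * x n)‖ := by
  rw [← Complex.norm_conj (∑ n ∈ range L, e (θ * x n)), map_sum]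
  congr 1
  refine sum_congr rfl fun n _ => ?_
  rw [conj_e]
  congr 1
  ring

/-- the bound when the absolute value of the derivative of order `k + 1` decreases -/
lemma exp_dec {k : ℕ} {A B lo hi s s' : ℝ} {φ : ℕ → ℝ → ℝ} (hs : s = 1 ∨ s = -1) (hss : s' = -s)
    (hlo : 0 < lo) (hhi : 0 ≤ hi) (θ : ℝ)
    (hθ : 0 < θ) (h : HyS k A B lo hi s s' φ) (u : ℝ) (N L H : ℕ) (hN : 1 ≤ N) (hL : L ≤ N)
    (hu : A ≤ u) (huL : u + L ≤ B) (hH : 1 ≤ H) (hHN : H ≤ N)
    (hup : 2 * (θ * (hi * (H : ℝ) ^ k)) ≤ 1) :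
    (‖∑ n ∈ range L, e (θ * φ 0 (u + n))‖ / N) ^ (2 ^ k) ≤
      Cq k * (1 / H + 2 / (θ * lo) / N) := by
  have hy : Hy k A B lo hi (fun m t => s * φ m t) := by
    refine ⟨fun m hm t ht => (h.der m hm t ht).const_mul s, h.lo, h.hi, fun t ht => ?_⟩
    have := h.mono t ht
    rw [hss] at this
    linarith
  have h1 := exp_bound hlo hhi θ hθ hy u N L H hN hL hu huL hH hHN hup
  rcases hs with rfl | rfl
  · simpa only [one_mul] using h1
  · rw [← norm_sum_conj]
    simpa only [neg_mul, one_mul] using h1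

/-- the bound in general -/
lemma exp_gen {k : ℕ} {A lo hi s s' : ℝ} {φ : ℕ → ℝ → ℝ} (hs : s = 1 ∨ s = -1)
    (hs' : s' = 1 ∨ s' = -1) (hlo : 0 < lo) (hhi : 0 ≤ hi) (θ : ℝ)
    (hθ : 0 < θ) (L H : ℕ) (h : HyS k A (A + L + 1) lo hi s s' φ) (hN : 1 ≤ L)
    (hH : 1 ≤ H) (hHN : H ≤ L) (hup : 2 * (θ * (hi * (H : ℝ) ^ k)) ≤ 1) :
    (‖∑ n ∈ range L, e (θ * φ 0 (A + 1 + n))‖ / L) ^ (2 ^ k) ≤
      Cq k * (1 / H + 2 / (θ * lo) / L) := by
  have hL0 : (0 : ℝ) ≤ L := Nat.cast_nonneg L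
  by_cases hss : s' = -s
  · exact exp_dec hs hss hlo hhi θ hθ h (A + 1) L L H hN le_rfl (by linarith) (by linarith) hH hHN hup
  · have hs2 : s' = s := by
      rcases hs with rfl | rfl <;> rcases hs' with rfl | rfl
      · rfl
      · exact absurd rfl hss
      · exfalso
        exact hss (by norm_num)
      · rfl
    -- time reversal
    set c : ℝ := 2 * A + L + 1 with hc
    have hpow : ∀ m : ℕ, ((-1 : ℝ) ^ m = 1 ∨ (-1 : ℝ) ^ m = -1) := fun m => neg_one_pow_eq_or ℝ m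
    have hy : HyS k (A + 1) (A + L + 1) lo hi ((-1) ^ (k + 1) * s) (-((-1) ^ (k + 1) * s))
        (fun m t => (-1) ^ m * φ m (c - t)) := by
      have hsq : ∀ m : ℕ, (-1 : ℝ) ^ m * (-1) ^ m = 1 := fun m => by
        rw [← mul_pow]; norm_num
      refine ⟨?_, ?_, ?_, ?_⟩
      · intro m hm t ht
        have h1 : c - t ∈ Set.Icc A (A + L + 1) := by
          rw [hc]
          constructor <;> linarith [ht.1, ht.2]
        have h2 := (h.der m hm _ h1).comp_const_sub c t
        have h3 := h2.const_mul ((-1 : ℝ) ^ m)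
        have e1 : (-1 : ℝ) ^ (m + 1) * φ (m + 1) (c - t) = (-1) ^ m * -φ (m + 1) (c - t) := by ring
        rw [e1]
        exact h3
      · intro t ht
        have h1 : c - t ∈ Set.Icc A (A + L + 1) := by
          rw [hc]
          constructor <;> linarith [ht.1, ht.2]
        have := h.lo _ h1
        calc lo ≤ s * φ (k + 1) (c - t) := this
          _ = ((-1) ^ (k + 1) * (-1) ^ (k + 1)) * (s * φ (k + 1) (c - t)) := by rw [hsq, one_mul]
          _ = _ := by ring
      · intro t ht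
        have h1 : c - t ∈ Set.Icc A (A + L + 1) := by
          rw [hc]
          constructor <;> linarith [ht.1, ht.2]
        have := h.hi _ h1
        calc _ = ((-1) ^ (k + 1) * (-1) ^ (k + 1)) * (s * φ (k + 1) (c - t)) := by ring
          _ = s * φ (k + 1) (c - t) := by rw [hsq, one_mul]
          _ ≤ hi := this
      · intro t ht
        have h1 : c - t ∈ Set.Icc A (A + L + 1) := by
          rw [hc]
          constructor <;> linarith [ht.1, ht.2]
        have := h.mono _ h1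
        rw [hs2] at this
        calc (0 : ℝ) ≤ s * φ (k + 2) (c - t) := this
          _ = ((-1) ^ (k + 1) * (-1) ^ (k + 1)) * (s * φ (k + 2) (c - t)) := by rw [hsq, one_mul]
          _ = _ := by ring
    have hs3 : (-1 : ℝ) ^ (k + 1) * s = 1 ∨ (-1 : ℝ) ^ (k + 1) * s = -1 := by
      rcases hpow (k + 1) with h1 | h1 <;> rcases hs with rfl | rfl <;> rw [h1] <;> norm_num
    have h5 := exp_dec hs3 rfl hlo hhi θ hθ hy (A + 1) L L H hN le_rfl le_rfl (by linarith) hH hHN hup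
    have e2 : ∑ n ∈ range L, e (θ * φ 0 (A + 1 + n)) =
        ∑ n ∈ range L, e (θ * ((fun m t => (-1 : ℝ) ^ m * φ m (c - t)) 0 (A + 1 + n))) := by
      rw [← sum_range_reflect]
      refine sum_congr rfl fun n hn => ?_
      rw [mem_range] at hn
      have e3 : ((L - 1 - n : ℕ) : ℝ) = L - 1 - n := by
        rw [Nat.cast_sub (by omega), Nat.cast_sub (by omega)]
        push_cast
        ring
      simp only [pow_zero, one_mul]
      congr 3
      rw [e3, hc]
      ring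
    rw [e2]
    exact h5

set_option maxHeartbeats 4000000 in
/-- the main theorem, uniform in the function -/
theorem uniform_main (k : ℕ) (ε : ℝ) (hε : 0 < ε) (hε2 : ε ≤ 1 / 2) :
    ∃ κ : ℝ, 0 < κ ∧ ∃ M₀ : ℝ, ∀ M : ℝ, M₀ ≤ M → ∀ (A s s' : ℝ) (φ : ℕ → ℝ → ℝ),
      (s = 1 ∨ s = -1) → (s' = 1 ∨ s' = -1) →
      HyS k A (A + M) (M ^ (ε - 1)) (M ^ (-ε)) s s' φ →
      (∀ t ∈ Set.Icc A (A + M), M ^ ε ≤ φ 0 t) →
      ∃ n : ℕ, (n : ℝ) ≤ M ∧ ∀ q : ℕ, q.Prime → κ * ff M < |(q : ℝ) - φ 0 (A + n)| := by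
  set σ : ℝ := ε / (4 * (k + 1)) with hσ
  have hk0 : (0 : ℝ) ≤ k := Nat.cast_nonneg k
  have hσ0 : 0 < σ := by positivity
  have hσε : σ ≤ ε / 4 := by
    rw [hσ]
    apply div_le_div_of_nonneg_left hε.le (by norm_num)
    linarith
  have hσk : σ * k ≤ ε / 4 := by
    have : σ * (4 * (k + 1)) = ε := by rw [hσ]; field_simp
    nlinarith
  set δ' : ℝ := σ / 2 ^ k with hδ'
  have hδ'0 : 0 < δ' := by positivity
  have h2k : (1 : ℝ) ≤ 2 ^ k := one_le_pow₀ (by norm_num)
  have hδ'σ : δ' ≤ σ := div_le_self hσ0.le h2k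
  set η : ℝ := δ' / 12 with hη
  have hη0 : 0 < η := by positivity
  have hη4 : 4 * η = δ' / 3 := by rw [hη]; ring
  obtain ⟨κ, hκ, hcrit⟩ := crit_scaled η hη0 (by linarith)
  have hCq := Cq_pos k
  set C₁ : ℝ := (Cq k * 14) ^ ((1 : ℝ) / 2 ^ k) with hC₁
  have hC₁0 : 0 < C₁ := by positivity
  refine ⟨κ, hκ, ?_⟩
  apply eventually_atTop.mp
  filter_upwards [hcrit, eventually_ge_atTop (4 : ℝ),
    ev_pow (-δ') (-(4 * η)) C₁ (by linarith),
    ev_pow (-(ε / 2)) 0 8 (by linarith),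
    (tendsto_rpow_atTop hσ0).eventually_ge_atTop 2,
    ev_pow σ 1 4 (by linarith)]
    with M hcr hM4 hp1 hp2 hp4 hp6
  have hM0 : 0 < M := lt_of_lt_of_le (by norm_num) hM4
  have hM1 : 1 ≤ M := le_trans (by norm_num) hM4
  rw [Real.rpow_one] at hp6
  intro A s s' φ hs hs' hy hpos
  set L : ℕ := ⌊M⌋₊ - 1 with hL
  have hfl : (⌊M⌋₊ : ℝ) ≤ M := Nat.floor_le hM0.le
  have hfl2 : M < ⌊M⌋₊ + 1 := Nat.lt_floor_add_one _
  have hfl1 : 1 ≤ ⌊M⌋₊ := Nat.le_floor (by simpa using hM1)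
  have hLr : (L : ℝ) = ⌊M⌋₊ - 1 := by
    rw [hL, Nat.cast_sub hfl1]
    norm_num
  have hLM : (L : ℝ) + 1 ≤ M := by rw [hLr]; linarith
  have hML : M / 2 ≤ L := by rw [hLr]; linarith
  have hLpos : 0 < L := by
    have : (0 : ℝ) < L := by linarith
    exact_mod_cast this
  have hL0 : (0 : ℝ) < L := by exact_mod_cast hLpos
  set H : ℕ := ⌊M ^ σ⌋₊ with hH
  have hHM : (H : ℝ) ≤ M ^ σ := Nat.floor_le (by positivity)
  have hMH : M ^ σ / 2 ≤ H := by
    have := Nat.lt_floor_add_one (M ^ σ)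
    linarith
  have hH0 : (0 : ℝ) < H := by linarith
  have hH1 : 1 ≤ H := by exact_mod_cast hH0
  have hHL : H ≤ L := by
    have : (H : ℝ) ≤ L := by linarith
    exact_mod_cast this
  have hy' : HyS k A (A + L + 1) (M ^ (ε - 1)) (M ^ (-ε)) s s' φ := by
    have hsub : ∀ t ∈ Set.Icc A (A + L + 1), t ∈ Set.Icc A (A + M) := fun t ht =>
      ⟨ht.1, ht.2.trans (by linarith)⟩
    exact ⟨fun m hm t ht => hy.der m hm t (hsub t ht), fun t ht => hy.lo t (hsub t ht),
      fun t ht => hy.hi t (hsub t ht), fun t ht => hy.mono t (hsub t ht)⟩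
  have hlo0 : 0 < M ^ (ε - 1) := by positivity
  obtain ⟨i, hi, hi2⟩ := hcr ℕ (range L) (fun n => φ 0 (A + 1 + n))
    (by rw [Finset.nonempty_range_iff]; omega) (by
      intro n hn
      rw [mem_range] at hn
      have hn0 : (0 : ℝ) ≤ n := Nat.cast_nonneg n
      have hn1 : (n : ℝ) ≤ L := by exact_mod_cast hn.le
      have h1 := hpos (A + 1 + n) ⟨by linarith, by linarith⟩
      refine le_trans ?_ h1
      exact Real.rpow_le_rpow_of_exponent_le hM1 (by linarith)) (by
      intro q h hq hqX hh hhX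
      have hq0 : (0 : ℝ) < q := by exact_mod_cast hq
      have hh1 : (1 : ℝ) ≤ h := by exact_mod_cast hh
      have hq1 : (1 : ℝ) ≤ q := by exact_mod_cast hq
      set θ : ℝ := (h : ℝ) / q with hθ
      have hθ0 : 0 < θ := by positivity
      have hθup : θ ≤ M ^ (4 * η) := (div_le_self (by linarith) hq1).trans hhX
      have hθlow : 1 / θ ≤ M ^ η := by
        rw [hθ, one_div_div]
        exact (div_le_self hq0.le hh1).trans hqX
      have hHk : (H : ℝ) ^ k ≤ M ^ (σ * k) := by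
        calc (H : ℝ) ^ k ≤ (M ^ σ) ^ k := pow_le_pow_left₀ (Nat.cast_nonneg _) hHM k
          _ = M ^ (σ * k) := by rw [← Real.rpow_natCast, ← Real.rpow_mul hM0.le]
      have hcond : 2 * (θ * (M ^ (-ε) * (H : ℝ) ^ k)) ≤ 1 := by
        calc 2 * (θ * (M ^ (-ε) * (H : ℝ) ^ k)) ≤
            2 * (M ^ (4 * η) * (M ^ (-ε) * M ^ (σ * k))) := by gcongr
          _ = 2 * (M ^ (4 * η) * M ^ (-ε) * M ^ (σ * k)) := by ring
          _ = 2 * M ^ (4 * η + -ε + σ * k) := by
              rw [Real.rpow_add hM0, Real.rpow_add hM0]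
          _ ≤ 2 * M ^ (-(ε / 2)) := by
              apply mul_le_mul_of_nonneg_left _ (by norm_num)
              apply Real.rpow_le_rpow_of_exponent_le hM1
              linarith
          _ ≤ 1 := by
              rw [Real.rpow_zero] at hp2
              have : 0 ≤ M ^ (-(ε / 2)) := by positivity
              linarith
      have hexp := exp_gen hs hs' hlo0 (by positivity) θ hθ0 L H hy' hLpos hH1 hHL hcond
      have hb : Cq k * (1 / H + 2 / (θ * M ^ (ε - 1)) / L) ≤ (Cq k * 14) * M ^ (-σ) := by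
        have e1 : 1 / (H : ℝ) ≤ 2 * M ^ (-σ) := by
          rw [Real.rpow_neg hM0.le, div_le_iff₀ hH0]
          have h5 : (0 : ℝ) < M ^ σ := by positivity
          calc (1 : ℝ) = 2 * (M ^ σ)⁻¹ * (M ^ σ / 2) := by field_simp
            _ ≤ _ := by gcongr
        have e2 : 2 / (θ * M ^ (ε - 1)) / L ≤ 12 * M ^ (-σ) := by
          have e3 : 2 / (θ * M ^ (ε - 1)) / L = 2 * (1 / θ) * M ^ (1 - ε) * (1 / L) := by
            rw [show (1 : ℝ) - ε = -(ε - 1) by ring, Real.rpow_neg hM0.le]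
            field_simp
          rw [e3]
          have e5 : 1 / (L : ℝ) ≤ 2 * M ^ (-1 : ℝ) := by
            rw [Real.rpow_neg_one, div_le_iff₀ hL0]
            calc (1 : ℝ) = 2 * M⁻¹ * (M / 2) := by field_simp
              _ ≤ _ := by gcongr
          calc 2 * (1 / θ) * M ^ (1 - ε) * (1 / L) ≤
              2 * M ^ η * M ^ (1 - ε) * (2 * M ^ (-1 : ℝ)) := by gcongr
            _ = 4 * (M ^ η * M ^ (1 - ε) * M ^ (-1 : ℝ)) := by ring
            _ = 4 * M ^ (η + (1 - ε) + -1) := by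
                rw [Real.rpow_add hM0, Real.rpow_add hM0]
            _ ≤ 4 * M ^ (-σ) := by
                apply mul_le_mul_of_nonneg_left _ (by norm_num)
                apply Real.rpow_le_rpow_of_exponent_le hM1
                linarith
            _ ≤ 12 * M ^ (-σ) := by
                have : 0 ≤ M ^ (-σ) := by positivity
                linarith
        calc Cq k * (1 / H + 2 / (θ * M ^ (ε - 1)) / L) ≤
            Cq k * (2 * M ^ (-σ) + 12 * M ^ (-σ)) := by gcongr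
          _ = _ := by ring
      have hroot := root_le _ _ k (by positivity) (hexp.trans hb)
      have hr2 : ((Cq k * 14) * M ^ (-σ)) ^ ((1 : ℝ) / 2 ^ k) = C₁ * M ^ (-δ') := by
        rw [Real.mul_rpow (by positivity) (by positivity), ← Real.rpow_mul hM0.le, hC₁, hδ']
        congr 2
        ring
      rw [hr2, div_le_iff₀ hL0] at hroot
      have hcard : ((range L).card : ℝ) = L := by rw [card_range]
      rw [hcard]
      refine hroot.trans ?_
      rw [mul_comm (L : ℝ)]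
      exact mul_le_mul_of_nonneg_right hp1 hL0.le)
  rw [mem_range] at hi
  have hi1 : (i : ℝ) + 1 ≤ L := by exact_mod_cast hi
  refine ⟨1 + i, ?_, ?_⟩
  · push_cast
    linarith
  · intro q hq
    have := hi2 q hq
    push_cast
    rw [← add_assoc]
    exact this

end Pool.Agent.TH668.Sm
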